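import Pool.Agent.Work.MP_0f2eae_al.Defs0

/-!
Basic properties of profinite powers and of the group of continuous automorphisms.
-/

open CategoryTheory

namespace Pool.Agent.Work.MP_0f2eae_al

variable {G : Type} [Group G] {P Q : Type}
  [Group P] [TopologicalSpace P] [IsTopologicalGroup P] [CompactSpace P]
  [TotallyDisconnectedSpace P]
  [Group Q] [TopologicalSpace Q] [IsTopologicalGroup Q] [CompactSpace Q]
  [TotallyDisconnectedSpace Q]

@[simp] lemma liftHat_eta (f : G →* P) (x : G) : liftHat f (eta G x) = f x := by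
  have := ProfiniteGrp.ProfiniteCompletion.lift_eta (G := GrpCat.of G) (P := ProfiniteGrp.of P)
    (GrpCat.ofHom f)
  exact ConcreteCategory.congr_hom this x

lemma denseRange_eta : DenseRange (eta G) :=
  ProfiniteGrp.ProfiniteCompletion.denseRange (GrpCat.of G)

lemma hat_ext {Y : Type*} [TopologicalSpace Y] [T2Space Y] {f g : Hat G → Y} (hf : Continuous f)
    (hg : Continuous g) (h : ∀ x, f (eta G x) = g (eta G x)) : f = g :=
  denseRange_eta.equalizer hf hg (funext h)

lemma continuous_powHat (x : P) : Continuous (powHat x) := (liftHat _).continuous_toFun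

@[simp] lemma powHat_eta (x : P) (k : Multiplicative ℤ) :
    powHat x (eta _ k) = x ^ k.toAdd := by
  simp [powHat]

@[simp] lemma powHat_oneHat (x : P) : powHat x oneHat = x := by simp [oneHat]

lemma map_powHat {F : Type*} [FunLike F P Q] [MonoidHomClass F P Q] (f : F) (hf : Continuous f)
    (x : P) (a : ZHat) : f (powHat x a) = powHat (f x) a := by
  have : (fun a => f (powHat x a)) = powHat (f x) :=
    hat_ext (hf.comp (continuous_powHat x)) (continuous_powHat _) fun k => by simp
  exact congrFun this a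

lemma powHat_powHat (x : P) (a b : ZHat) : powHat (powHat x a) b = powHat x (powHat a b) :=
  (map_powHat (liftHat (zpowersHom P x)) (liftHat _).continuous_toFun a b).symm

lemma conj_powHat (g x : P) (a : ZHat) : powHat (g * x * g⁻¹) a = g * powHat x a * g⁻¹ :=
  (map_powHat (MulAut.conj g) (show Continuous fun y : P => g * y * g⁻¹ by fun_prop) x a).symm

@[simp] lemma one_powHat (a : ZHat) : powHat (1 : P) a = 1 := by
  have : powHat (1 : P) = fun _ => 1 :=
    hat_ext (continuous_powHat _) continuous_const fun k => by simp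
  exact congrFun this a

lemma inv_powHat (x : P) (a : ZHat) : powHat x⁻¹ a = (powHat x a)⁻¹ := by
  have : powHat x⁻¹ = fun a => (powHat x a)⁻¹ :=
    hat_ext (continuous_powHat _) (continuous_powHat _).inv fun k => by simp
  exact congrFun this a

lemma powHat_oneHat_left (a : ZHat) : powHat oneHat a = a := by
  have : powHat oneHat = fun a => a :=
    hat_ext (continuous_powHat _) continuous_id fun k => by
      rw [powHat_eta, oneHat, ← map_zpow]
      congr 1
      apply Multiplicative.toAdd.injective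
      simp
  exact congrFun this a

lemma isUnitHat_one : IsUnitHat oneHat := ⟨oneHat, powHat_oneHat _, powHat_oneHat _⟩

lemma IsUnitHat.mul {a b : ZHat} (ha : IsUnitHat a) (hb : IsUnitHat b) :
    IsUnitHat (powHat a b) := by
  obtain ⟨a', h1, h2⟩ := ha
  obtain ⟨b', h3, h4⟩ := hb
  refine ⟨powHat b' a', ?_, ?_⟩
  · rw [powHat_powHat, ← powHat_powHat b, h3, powHat_oneHat_left, h1]
  · rw [powHat_powHat, ← powHat_powHat a', h2, powHat_oneHat_left, h4]

lemma powHat_inv_oneHat (x : P) : powHat x oneHat⁻¹ = x⁻¹ := by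
  rw [oneHat, ← map_inv, powHat_eta]; simp

lemma isUnitHat_neg : IsUnitHat oneHat⁻¹ := by
  refine ⟨oneHat⁻¹, ?_, ?_⟩ <;> rw [powHat_inv_oneHat, inv_inv]

lemma CAut.cont (φ : CAut P) : Continuous (CAut.val φ) := φ.2

@[ext] lemma CAut.ext {φ ψ : CAut P} (h : ∀ x, CAut.val φ x = CAut.val ψ x) : φ = ψ :=
  Subtype.ext (MulEquiv.ext h)

lemma continuous_toCM : Continuous (CAut.toCM : CAut P → C(P, P)) :=
  continuous_induced_dom

lemma continuous_eval (x : P) : Continuous fun φ : CAut P => CAut.val φ x :=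
  (continuous_eval_const (F := C(P, P)) x).comp continuous_toCM

@[simp] lemma val_inv_apply (φ : CAut P) (x : P) : CAut.val φ⁻¹ (CAut.val φ x) = x :=
  (CAut.val φ).symm_apply_apply x

@[simp] lemma val_apply_inv (φ : CAut P) (x : P) : CAut.val φ (CAut.val φ⁻¹ x) = x :=
  (CAut.val φ).apply_symm_apply x

lemma val_mul_apply (φ ψ : CAut P) (x : P) : CAut.val (φ * ψ) x = CAut.val φ (CAut.val ψ x) := rfl

instance caut_isTopologicalGroup : IsTopologicalGroup (CAut P) where
  continuous_mul := by
    refine continuous_induced_rng.2 ?_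
    exact ContinuousMap.continuous_comp'.comp
      ((continuous_toCM.comp continuous_snd).prodMk (continuous_toCM.comp continuous_fst))
  continuous_inv := by
    refine continuous_induced_rng.2 (ContinuousMap.continuous_compactOpen.2 fun K hK U hU => ?_)
    have h := (ContinuousMap.isOpen_setOfPred_mapsTo hU.isClosed_compl.isCompact
      hK.isClosed.isOpen_compl).preimage (continuous_toCM (P := P))
    convert h using 1
    ext φ
    constructor
    · intro hφ x hx hK'
      exact hx (val_inv_apply φ x ▸ hφ hK')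
    · intro hφ x hx
      by_contra hcon
      exact hφ hcon (by rw [← val_apply_inv φ x] at hx; exact hx)

variable {n : ℕ} {l : Fin n → P}

lemma isLac_one : IsLac l oneHat 1 := ⟨1, fun _ => ⟨1, by simp⟩⟩

lemma IsLac.mul {a b : ZHat} {φ ψ : CAut P} (hφ : IsLac l a φ) (hψ : IsLac l b ψ) :
    IsLac l (powHat a b) (φ * ψ) := by
  obtain ⟨σ, hσ⟩ := hφ
  obtain ⟨τ, hτ⟩ := hψ
  refine ⟨σ * τ, fun i => ?_⟩
  obtain ⟨β, hβ⟩ := hτ i
  obtain ⟨α, hα⟩ := hσ (τ i)
  refine ⟨CAut.val φ β * α, ?_⟩
  rw [val_mul_apply, hβ, map_mul, map_mul, map_inv,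
    map_powHat (CAut.val φ) φ.cont, hα, conj_powHat, powHat_powHat]
  simp [mul_assoc]

lemma IsLac.inv {a b : ZHat} {φ : CAut P} (hφ : IsLac l a φ)
    (hab : powHat a b = oneHat) : IsLac l b φ⁻¹ := by
  obtain ⟨σ, hσ⟩ := hφ
  refine ⟨σ⁻¹, fun i => ?_⟩
  obtain ⟨α, hα⟩ := hσ (σ⁻¹ i)
  refine ⟨(CAut.val φ⁻¹ α)⁻¹, ?_⟩
  apply (CAut.val φ).injective
  rw [val_apply_inv, map_mul, map_mul, inv_inv, map_inv (CAut.val φ), val_apply_inv,
    map_powHat (CAut.val φ) φ.cont, hα, conj_powHat, powHat_powHat, hab]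
  simp [mul_assoc]

end Pool.Agent.Work.MP_0f2eae_al
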