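import Mathlib.Topology.Algebra.Category.ProfiniteGrp.Completion
import Mathlib.Topology.CompactOpen
import Mathlib.GroupTheory.PresentedGroup

/-!
Profinite completions, profinite powers, continuous automorphisms, and the groups `π_{0,n}`.
-/

open ProfiniteGrp

namespace Pool.Agent.Work.MP_0f2eae_al

/-- The profinite completion of a group. -/
def Hat (G : Type) [Group G] : Type := ProfiniteCompletion.completion (GrpCat.of G)

section

variable (G : Type) [Group G]

instance hatGroup : Group (Hat G) := (ProfiniteCompletion.completion (GrpCat.of G)).group

instance hatTop : TopologicalSpace (Hat G) :=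
  (ProfiniteCompletion.completion (GrpCat.of G)).toProfinite.toTop.str

instance hatTopGroup : IsTopologicalGroup (Hat G) :=
  (ProfiniteCompletion.completion (GrpCat.of G)).topologicalGroup

instance hatCompact : CompactSpace (Hat G) :=
  (ProfiniteCompletion.completion (GrpCat.of G)).toProfinite.is_compact

instance hatTotDisc : TotallyDisconnectedSpace (Hat G) :=
  (ProfiniteCompletion.completion (GrpCat.of G)).toProfinite.prop

/-- The canonical map from a group to its profinite completion. -/
def eta : G →* Hat G := (ProfiniteCompletion.eta (GrpCat.of G)).hom

end

/-- The profinite completion of the integers (its addition is written multiplicatively). -/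
abbrev ZHat : Type := Hat (Multiplicative ℤ)

/-- The element `1` of the ring of profinite integers. -/
def oneHat : ZHat := eta (Multiplicative ℤ) (Multiplicative.ofAdd 1)

/-- The group `π_{0,n} = ⟨l_1, …, l_n | l_1 ⋯ l_n = 1⟩`. -/
abbrev Pi0 (n : ℕ) : Type :=
  PresentedGroup ({(List.ofFn fun i : Fin n => FreeGroup.of i).prod} : Set (FreeGroup (Fin n)))

/-- The generator `l_i`, in the profinite completion. -/
def gen (n : ℕ) (i : Fin n) : Hat (Pi0 n) := eta (Pi0 n) (PresentedGroup.of i)

variable {P : Type} [Group P] [TopologicalSpace P] [IsTopologicalGroup P] [CompactSpace P]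
  [TotallyDisconnectedSpace P]

/-- The continuous extension to the profinite completion of a homomorphism to a profinite
group. -/
noncomputable def liftHat {G : Type} [Group G] (f : G →* P) : Hat G →ₜ* P :=
  (ProfiniteCompletion.lift (G := GrpCat.of G) (P := ProfiniteGrp.of P) (GrpCat.ofHom f)).hom

/-- The power `x ^ a` of an element of a profinite group by a profinite integer: the image of `a`
under the continuous homomorphism that extends `k ↦ x ^ k`. -/
noncomputable def powHat (x : P) (a : ZHat) : P := liftHat (zpowersHom P x) a

/-- Units of the ring of profinite integers; its product `a b` is `powHat a b`. -/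
def IsUnitHat (a : ZHat) : Prop := ∃ b : ZHat, powHat a b = oneHat ∧ powHat b a = oneHat

variable (P) in
/-- The continuous automorphisms, as a subgroup of the group of all automorphisms. -/
def contAut : Subgroup (MulAut P) where
  carrier := {φ | Continuous φ}
  one_mem' := continuous_id
  mul_mem' {φ ψ} hφ hψ := Continuous.comp (g := φ) (f := ψ) hφ hψ
  inv_mem' {φ} hφ := Continuous.continuous_symm_of_equiv_compact_to_t2 (f := φ.toEquiv) hφ

variable (P) in
/-- The group of continuous automorphisms of a profinite group. -/
def CAut : Type := contAut P

instance cautGroup : Group (CAut P) := (contAut P).toGroup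

/-- The underlying automorphism. -/
def CAut.val : CAut P →* MulAut P := (contAut P).subtype

/-- The underlying continuous map. -/
def CAut.toCM (φ : CAut P) : C(P, P) := ⟨CAut.val φ, φ.2⟩

/-- The compact-open topology on the group of continuous automorphisms. -/
instance cautTop : TopologicalSpace (CAut P) := TopologicalSpace.induced CAut.toCM inferInstance

/-- `φ (l_i) = α_i l_{σ i} ^ a α_i⁻¹` for some permutation `σ` and some `α_i`. -/
def IsLac {n : ℕ} (l : Fin n → P) (a : ZHat) (φ : CAut P) : Prop :=
  ∃ σ : Equiv.Perm (Fin n), ∀ i, ∃ α : P, CAut.val φ (l i) = α * powHat (l (σ i)) a * α⁻¹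

end Pool.Agent.Work.MP_0f2eae_al
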