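import Pool.Agent.Work.MP_0f2eae_al.Basic
import Mathlib.Topology.Algebra.Group.Quotient
import Mathlib.FieldTheory.AbsoluteGaloisGroup

/-!
The groups of the problem, for a profinite group `P` with distinguished elements `l i` and a
distinguished subgroup `D` (the discrete group).
-/

namespace Pool.Agent.Work.MP_0f2eae_al

section

variable {A : Type} [Group A] [TopologicalSpace A] [IsTopologicalGroup A]

/-- Inside `L / (I ∩ L)`: the image of the closure in `L` of `S ∩ L`, intersected with the image
of `C ∩ L`. -/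
def plusPart (L I S C : Subgroup A) [I.Normal] : Subgroup (L ⧸ I.subgroupOf L) :=
  (S.subgroupOf L).topologicalClosure.map (QuotientGroup.mk' (I.subgroupOf L)) ⊓
    (C.subgroupOf L).map (QuotientGroup.mk' (I.subgroupOf L))

/-- `N` is normal in `T` and `T / N` is isomorphic, as a topological group, to the absolute
Galois group of `ℚ`. -/
def NormalWithGaloisQuotient {T : Type} [Group T] [TopologicalSpace T] (N : Subgroup T) : Prop :=
  ∃ _ : N.Normal, Nonempty ((T ⧸ N) ≃ₜ* Field.absoluteGaloisGroup ℚ)

/-- The assertion for `plusPart L I S C` inside `L / (I ∩ L)`. -/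
def PlusAssertion (L I S C : Subgroup A) [I.Normal] : Prop :=
  NormalWithGaloisQuotient (plusPart L I S C)

end

variable {P : Type} [Group P] [TopologicalSpace P] [IsTopologicalGroup P] [CompactSpace P]
  [TotallyDisconnectedSpace P] {n : ℕ}

/-- `Aut_lac`: continuous automorphisms with `φ (l_i) = α_i l_{σ i} ^ a α_i⁻¹`, `a` a unit. -/
def autLac (l : Fin n → P) : Subgroup (CAut P) where
  carrier := {φ | ∃ a, IsUnitHat a ∧ IsLac l a φ}
  one_mem' := ⟨oneHat, isUnitHat_one, isLac_one⟩
  mul_mem' := fun ⟨_, ha, hφ⟩ ⟨_, hb, hψ⟩ => ⟨_, ha.mul hb, hφ.mul hψ⟩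
  inv_mem' := fun ⟨a, ⟨b, hab, hba⟩, hφ⟩ => ⟨b, ⟨a, hba, hab⟩, hφ.inv hab⟩

variable (P) in
/-- The inner automorphisms. -/
def inn : Subgroup (CAut P) := (MulAut.conj : P →* MulAut P).range.comap CAut.val

instance inn_normal : (inn P).Normal :=
  Subgroup.Normal.comap
    ⟨by
      rintro _ ⟨g, rfl⟩ φ
      exact ⟨φ g, by ext x; simp⟩⟩ _

/-- The automorphisms that map the subgroup `D` onto itself. -/
def discrete (D : Subgroup P) : Subgroup (CAut P) where
  carrier := {φ | D.map (CAut.val φ).toMonoidHom = D}
  one_mem' := Subgroup.map_id _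
  mul_mem' {φ ψ} hφ hψ :=
    (Subgroup.map_map _ (CAut.val φ).toMonoidHom (CAut.val ψ).toMonoidHom).symm.trans
      ((congrArg (Subgroup.map (CAut.val φ).toMonoidHom) hψ).trans hφ)
  inv_mem' {φ} hφ := (Subgroup.map_symm_eq_iff_map_eq _ (e := CAut.val φ)).2 hφ

/-- The automorphisms with cyclotomic character `1`. -/
def chiOne (l : Fin n → P) : Subgroup (CAut P) where
  carrier := {φ | IsLac l oneHat φ}
  one_mem' := isLac_one
  mul_mem' hφ hψ := powHat_oneHat oneHat ▸ IsLac.mul hφ hψ
  inv_mem' hφ := IsLac.inv hφ (powHat_oneHat oneHat)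

/-- The assertion of the conjecture for the data `(P, l, D)`: in `𝕋 = Aut_lac / Inn`, the image of
the closure of the automorphisms that preserve `D`, intersected with the kernel of the cyclotomic
character, is normal with quotient isomorphic to the absolute Galois group of `ℚ`. -/
def Assertion (l : Fin n → P) (D : Subgroup P) : Prop :=
  PlusAssertion (autLac l) (inn P) (discrete D) (chiOne l)

end Pool.Agent.Work.MP_0f2eae_al
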