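import Pool.Agent.Work.MP_0f2eae_al.Struct

/-!
Reflections of the four-punctured sphere group.
-/

namespace Pool.Agent.Work.MP_0f2eae_al

lemma rel4 : gen 4 0 * (gen 4 1 * (gen 4 2 * gen 4 3)) = 1 := by
  simpa [List.ofFn_succ] using prod_gen (n := 4)

lemma gen4_three : gen 4 3 = (gen 4 0 * gen 4 1 * gen 4 2)⁻¹ := by
  rw [eq_inv_iff_mul_eq_one, ← mul_left_inj (gen 4 3), one_mul]
  have := rel4
  calc gen 4 3 * (gen 4 0 * gen 4 1 * gen 4 2) * gen 4 3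
      = gen 4 3 * (gen 4 0 * (gen 4 1 * (gen 4 2 * gen 4 3))) := by group
    _ = gen 4 3 := by rw [rel4, mul_one]

/-- The standard reflection, as an endomorphism. -/
noncomputable def iotaHom : Hat (Pi0 4) →ₜ* Hat (Pi0 4) :=
  mkHom ![(gen 4 0)⁻¹, gen 4 0 * (gen 4 1)⁻¹ * (gen 4 0)⁻¹,
    gen 4 0 * gen 4 1 * (gen 4 2)⁻¹ * (gen 4 0 * gen 4 1)⁻¹, (gen 4 3)⁻¹] (by
      simp only [List.ofFn_succ, List.ofFn_zero, List.prod_cons, List.prod_nil, Matrix.cons_val_zero,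
        Matrix.cons_val_succ]
      rw [gen4_three]; group)

lemma iotaHom_comp : iotaHom.comp iotaHom = ContinuousMonoidHom.id _ := by
  refine chom_ext fun i => ?_
  fin_cases i <;> simp [iotaHom, mul_assoc]

lemma iotaHom_conj (i : Fin 4) : ∃ γ, iotaHom (gen 4 i) = γ * (gen 4 i)⁻¹ * γ⁻¹ := by
  fin_cases i
  · exact ⟨1, by simp [iotaHom]⟩
  · exact ⟨gen 4 0, by simp [iotaHom]⟩
  · exact ⟨gen 4 0 * gen 4 1, by simp [iotaHom]⟩
  · exact ⟨1, by simp [iotaHom]⟩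

/-- The standard reflection. -/
noncomputable def iota : AL 4 :=
  ⟨mkAut iotaHom iotaHom iotaHom_comp iotaHom_comp, oneHat⁻¹, isUnitHat_neg, 1, fun i => by
    simpa [powHat_inv_oneHat] using iotaHom_conj i⟩

/-- Involutions that invert the last generator and invert the others up to conjugation. -/
structure Refl (κ : AL 4) : Prop where
  sq : κ * κ = 1
  last : ap κ (gen 4 3) = (gen 4 3)⁻¹
  conj : ∀ i, ∃ γ, ap κ (gen 4 i) = γ * (gen 4 i)⁻¹ * γ⁻¹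

lemma refl_iota : Refl iota where
  sq := by
    exact AL_ext fun x => DFunLike.congr_fun iotaHom_comp x
  last := by
    change iotaHom _ = _
    simp [iotaHom]
  conj := iotaHom_conj

lemma iota_not_mem : iota ∉ KK 4 := by
  intro h
  obtain ⟨σ, hσ⟩ := mem_CC.1 (mem_KK.1 h).2
  obtain ⟨α, hα⟩ := hσ 3
  rw [refl_iota.last, powHat_oneHat] at hα
  let y : Multiplicative (ZMod 4) := Multiplicative.ofAdd 1
  let f : Hat (Pi0 4) →ₜ* Multiplicative (ZMod 4) := mkHom (fun _ => y) (by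
    decide)
  have h1 := congrArg f hα
  simp only [map_inv, map_mul, f, mkHom_gen] at h1
  have h2 : ∀ z : Multiplicative (ZMod 4), y⁻¹ ≠ z * y * z⁻¹ := by decide
  exact h2 _ h1

/-- The rotation, as an endomorphism. -/
noncomputable def rotHom : Hat (Pi0 4) →ₜ* Hat (Pi0 4) :=
  mkHom ![gen 4 1, gen 4 2, gen 4 3, gen 4 0] (by
    simp only [List.ofFn_succ, List.ofFn_zero, List.prod_cons, List.prod_nil, Matrix.cons_val_zero,
      Matrix.cons_val_succ]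
    rw [gen4_three]; group)

/-- The inverse rotation, as an endomorphism. -/
noncomputable def rotInv : Hat (Pi0 4) →ₜ* Hat (Pi0 4) :=
  mkHom ![gen 4 3, gen 4 0, gen 4 1, gen 4 2] (by
    simp only [List.ofFn_succ, List.ofFn_zero, List.prod_cons, List.prod_nil, Matrix.cons_val_zero,
      Matrix.cons_val_succ]
    rw [gen4_three]; group)

lemma rotHom_gen (i : Fin 4) : rotHom (gen 4 i) = gen 4 (i + 1) := by
  fin_cases i <;> simp [rotHom]

lemma rotInv_gen (i : Fin 4) : rotInv (gen 4 i) = gen 4 (i - 1) := by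
  fin_cases i
  · simp [rotInv]; rfl
  all_goals simp [rotInv]

/-- The rotation. -/
noncomputable def rot : AL 4 :=
  ⟨mkAut rotHom rotInv (chom_ext fun i => by simp [rotHom_gen, rotInv_gen])
    (chom_ext fun i => by simp [rotHom_gen, rotInv_gen]),
    oneHat, isUnitHat_one, Equiv.addRight 1, fun i => ⟨1, by simp [rotHom_gen]⟩⟩

lemma rot_gen (i : Fin 4) : ap rot (gen 4 i) = gen 4 (i + 1) := rotHom_gen i

lemma rot_mem : rot ∈ KK 4 := by
  refine mem_KK_of_discrete (mem_discrete.2 ⟨fun i => ?_, fun i => ?_⟩)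
    (mem_CC.2 ⟨Equiv.addRight 1, fun i => ⟨1, by simp [rot_gen]⟩⟩)
  · rw [rot_gen]; exact gen_mem_range _
  · change rotInv (gen 4 i) ∈ _
    rw [rotInv_gen]; exact gen_mem_range _

lemma exists_rot (j : Fin 4) : ∃ β ∈ KK 4, ap β (gen 4 j) = gen 4 3 := by
  fin_cases j
  · exact ⟨rot * rot * rot, mul_mem (mul_mem rot_mem rot_mem) rot_mem, by simp [rot_gen]⟩
  · exact ⟨rot * rot, mul_mem rot_mem rot_mem, by simp [rot_gen]⟩
  · exact ⟨rot, rot_mem, by simp [rot_gen]⟩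
  · exact ⟨1, one_mem _, rfl⟩

lemma exists_normalised (s : AL 4) :
    ∃ β ∈ KK 4, ∃ μ, ap (β * s) (gen 4 3) = powHat (gen 4 3) μ := by
  obtain ⟨μ, -, σ, hσ⟩ := exists_lac s
  obtain ⟨α, hα⟩ := hσ 3
  obtain ⟨β, hβ, hβj⟩ := exists_rot (σ 3)
  refine ⟨β * conjLac α⁻¹, mul_mem hβ (conjLac_mem_KK _), μ, ?_⟩
  simp only [ap_mul, hα, conjLac_apply]
  rw [← hβj, ← map_powHat (ap β) (ap_cont β)]
  congr 1
  group

lemma Refl.conjugate {κ : AL 4} (hκ : Refl κ) {s : AL 4} {μ : ZHat}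
    (hs : ap s (gen 4 3) = powHat (gen 4 3) μ) : Refl (s⁻¹ * κ * s) where
  sq := by
    calc s⁻¹ * κ * s * (s⁻¹ * κ * s) = s⁻¹ * (κ * κ) * s := by group
      _ = 1 := by rw [hκ.sq]; group
  last := by
    have h1 : ∀ x, ap s⁻¹ (ap s x) = x := ap_inv_ap s
    simp only [ap_mul]
    rw [hs, map_powHat (ap κ) (ap_cont κ), hκ.last, inv_powHat, ← hs, map_inv, h1]
  conj := by
    intro i
    have h1 : ∀ x, ap s⁻¹ (ap s x) = x := ap_inv_ap s
    obtain ⟨a, -, σ, hσ⟩ := exists_lac s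
    obtain ⟨α, hα⟩ := hσ i
    obtain ⟨β, hβ⟩ := hκ.conj (σ i)
    refine ⟨ap s⁻¹ (ap κ α * β * α⁻¹), ?_⟩
    simp only [ap_mul]
    have h2 : ap κ (ap s (gen 4 i)) =
        (ap κ α * β * α⁻¹) * (ap s (gen 4 i))⁻¹ * (ap κ α * β * α⁻¹)⁻¹ := by
      rw [hα, map_mul, map_mul, map_inv, map_powHat (ap κ) (ap_cont κ), hβ, conj_powHat, inv_powHat]
      group
    rw [h2, map_mul (ap s⁻¹), map_mul (ap s⁻¹), map_inv (ap s⁻¹), map_inv (ap s⁻¹), h1]

lemma exists_refl_pair {Θ : AL 4 →* (Qb ≃ₐ[ℚ] Qb)} (hsurj : Function.Surjective Θ)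
    (hker : ∀ φ, Θ φ = 1 ↔ φ ∈ KK 4) :
    ∃ (κ₀ κ₁ : AL 4) (t : Qb), Refl κ₀ ∧ Refl κ₁ ∧ t ≠ 0 ∧ Θ κ₀ ≠ 1 ∧ Θ κ₀ t = t ∧
      Θ κ₁ t = -t := by
  have h1 : Θ iota ≠ 1 := fun h => iota_not_mem ((hker _).1 h)
  have h2 : Θ iota * Θ iota = 1 := by rw [← map_mul, refl_iota.sq, map_one]
  obtain ⟨t, s, ht0, ht, hs⟩ := exists_conj h2 h1
  obtain ⟨s₀, rfl⟩ := hsurj s
  obtain ⟨β, hβ, μ, hμ⟩ := exists_normalised s₀
  refine ⟨iota, _, t, refl_iota, refl_iota.conjugate hμ, ht0, h1, ht, ?_⟩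
  simpa only [map_mul, map_inv, (hker β).2 hβ, one_mul] using hs

end Pool.Agent.Work.MP_0f2eae_al
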