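import Mathlib.FieldTheory.Galois.Infinite
import Mathlib.FieldTheory.IsAlgClosed.AlgebraicClosure
import Mathlib.Algebra.Order.Ring.Cone
import Mathlib.Algebra.Order.Archimedean.Basic
import Mathlib.NumberTheory.Real.Irrational
import Mathlib.Tactic.LinearCombination
import Mathlib.Algebra.Algebra.Hom.Rat
import Mathlib.FieldTheory.IsSepClosed

/-!
Involutions in the absolute Galois group of the rationals: the degree two case of the
Artin-Schreier theorem, and the absence of four-element fans.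
-/

open Polynomial

namespace Pool.Agent.Work.MP_0f2eae_al

/-- The algebraic closure of the rationals. -/
abbrev Qb : Type := AlgebraicClosure ℚ

instance isAlgClosure_Qb : IsAlgClosure ℚ Qb := AlgebraicClosure.instIsAlgClosure ℚ

instance isGalois_Qb : IsGalois ℚ Qb := IsAlgClosure.isGalois ℚ Qb

lemma archimedean_of_algebraic {R : Type*} [Field R] [LinearOrder R] [IsStrictOrderedRing R]
    (h : ∀ x : R, IsAlgebraic ℚ x) : Archimedean R := by
  rw [archimedean_iff_rat_le]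
  intro x
  by_contra hcon
  push Not at hcon
  have key : ∀ n : ℕ, ∀ p : ℚ[X], p.natDegree = n → p ≠ 0 →
      ∃ δ : ℚ, 0 < δ ∧ (δ : R) ≤ |aeval x p| := by
    intro n
    induction n with
    | zero =>
      intro p hp hp0
      obtain ⟨c, rfl⟩ := natDegree_eq_zero.1 hp
      have hc : c ≠ 0 := by rintro rfl; simp at hp0
      exact ⟨|c|, abs_pos.2 hc, by simp⟩
    | succ n ih =>
      intro p hp hp0
      have h1 : p.divX.natDegree = n := by rw [natDegree_divX_eq_natDegree_tsub_one, hp]; rfl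
      have h2 : p.divX ≠ 0 := by
        intro h0
        rw [divX_eq_zero_iff] at h0
        rw [h0, natDegree_C] at hp
        omega
      obtain ⟨δ, hδ, hle⟩ := ih _ h1 h2
      refine ⟨1, one_pos, ?_⟩
      have h3 : aeval x p = x * aeval x p.divX + (p.coeff 0 : R) := by
        conv_lhs => rw [← X_mul_divX_add p]
        rw [map_add, map_mul, aeval_X, aeval_C, eq_ratCast]
      have hx := hcon ((1 + |p.coeff 0|) / δ)
      have hδ' : (0 : R) < δ := by exact_mod_cast hδ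
      push_cast at hx ⊢
      rw [div_lt_iff₀ hδ'] at hx
      have hx0 : 0 < x := by simpa using hcon 0
      have h4 : x * δ ≤ |x * aeval x p.divX| := by
        rw [abs_mul, abs_of_pos hx0]
        exact mul_le_mul_of_nonneg_left hle hx0.le
      have h5 := abs_add_le (aeval x p) (-(p.coeff 0 : R))
      rw [abs_neg, h3, add_neg_cancel_right] at h5
      rw [h3]
      linarith
  obtain ⟨p, hp0, hp⟩ := h x
  obtain ⟨δ, hδ, hle⟩ := key _ p rfl hp0
  rw [hp, abs_zero] at hle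
  have hδ' : (0 : R) < δ := by exact_mod_cast hδ
  linarith

/-- `x` is a nonzero square in the fixed field of `C`. -/
def Pos (C : Qb ≃ₐ[ℚ] Qb) (x : Qb) : Prop := ∃ y, y ≠ 0 ∧ C y = y ∧ y ^ 2 = x

variable {C : Qb ≃ₐ[ℚ] Qb}

lemma Pos.fixed {x : Qb} (h : Pos C x) : C x = x := by
  obtain ⟨y, -, h1, rfl⟩ := h
  rw [map_pow, h1]

lemma Pos.ne_zero {x : Qb} (h : Pos C x) : x ≠ 0 := by
  obtain ⟨y, h0, -, rfl⟩ := h
  exact pow_ne_zero 2 h0

lemma Pos.mul {x x' : Qb} (h : Pos C x) (h' : Pos C x') : Pos C (x * x') := by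
  obtain ⟨y, h0, h1, rfl⟩ := h
  obtain ⟨y', h0', h1', rfl⟩ := h'
  exact ⟨y * y', mul_ne_zero h0 h0', by rw [map_mul, h1, h1'], by ring⟩

lemma pos_sq {y : Qb} (h0 : y ≠ 0) (h : C y = y) : Pos C (y ^ 2) := ⟨y, h0, h, rfl⟩

lemma exists_sq (x : Qb) : ∃ y : Qb, y ^ 2 = x := IsAlgClosed.exists_pow_nat_eq x two_pos

lemma exists_j (hC : C * C = 1) (h1 : C ≠ 1) : ∃ j : Qb, j ^ 2 = -1 ∧ C j = -j := by
  have hCC : ∀ x, C (C x) = x := fun x => by
    rw [← AlgEquiv.mul_apply, hC, AlgEquiv.one_apply]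
  obtain ⟨y, hy⟩ : ∃ y, C y ≠ y := by
    by_contra hcon
    push Not at hcon
    exact h1 (AlgEquiv.ext hcon)
  set t := y - C y with ht
  have ht0 : t ≠ 0 := sub_ne_zero.2 hy.symm
  have hCt : C t = -t := by rw [ht, map_sub, hCC, neg_sub]
  obtain ⟨z, hz⟩ := exists_sq t
  have hz' : C z ^ 2 = -t := by rw [← map_pow, hz, hCt]
  refine ⟨z * C z / t, ?_, ?_⟩
  · rw [div_pow, mul_pow, hz, hz']; field_simp
  · rw [map_div₀, map_mul, hCC, hCt, mul_comm (C z) z, div_neg]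

lemma fixed_or_neg {x y : Qb} (hx : C x = x) (hy : y ^ 2 = x) : C y = y ∨ C y = -y := by
  apply sq_eq_sq_iff_eq_or_eq_neg.1
  rw [← map_pow, hy, hx]

lemma pos_neg_of_neg (hC : C * C = 1) (h1 : C ≠ 1) {y : Qb} (h0 : y ≠ 0) (h : C y = -y) :
    Pos C (-y ^ 2) := by
  obtain ⟨j, hj, hCj⟩ := exists_j hC h1
  have hj0 : j ≠ 0 := by rintro rfl; simp at hj
  exact ⟨j * y, mul_ne_zero hj0 h0, by rw [map_mul, hCj, h]; ring, by rw [mul_pow, hj]; ring⟩

lemma pos_or (hC : C * C = 1) (h1 : C ≠ 1) {x : Qb} (h0 : x ≠ 0) (hx : C x = x) :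
    Pos C x ∨ Pos C (-x) := by
  obtain ⟨y, hy⟩ := exists_sq x
  have hy0 : y ≠ 0 := by rintro rfl; exact h0 (by simpa using hy.symm)
  rcases fixed_or_neg hx hy with h | h
  · exact Or.inl ⟨y, hy0, h, hy⟩
  · exact Or.inr (hy ▸ pos_neg_of_neg hC h1 hy0 h)

lemma Pos.not_neg (hC : C * C = 1) (h1 : C ≠ 1) {x : Qb} (h : Pos C x) : ¬ Pos C (-x) := by
  rintro ⟨v, hv0, hv, hvx⟩
  obtain ⟨u, hu0, hu, rfl⟩ := h
  obtain ⟨j, hj, hCj⟩ := exists_j hC h1
  have hj0 : j ≠ 0 := by rintro rfl; simp at hj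
  have h2 : v ^ 2 = (j * u) ^ 2 := by rw [hvx, mul_pow, hj]; ring
  have h3 : C (j * u) = j * u := by
    rcases sq_eq_sq_iff_eq_or_eq_neg.1 h2 with h | h
    · rw [← h, hv]
    · rw [← neg_eq_iff_eq_neg] at h
      rw [← h, map_neg, hv]
  rw [map_mul, hCj, hu] at h3
  have : (2 : Qb) * (j * u) = 0 := by linear_combination -h3
  simp [hj0, hu0] at this

lemma Pos.add (hC : C * C = 1) (h1 : C ≠ 1) {x x' : Qb} (h : Pos C x) (h' : Pos C x') :
    Pos C (x + x') := by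
  have hCC : ∀ x, C (C x) = x := fun x => by
    rw [← AlgEquiv.mul_apply, hC, AlgEquiv.one_apply]
  have hne : x + x' ≠ 0 := by
    intro h0
    have : x' = -x := by linear_combination h0
    exact h.not_neg hC h1 (this ▸ h')
  obtain ⟨u, hu0, hu, rfl⟩ := h
  obtain ⟨v, hv0, hv, rfl⟩ := h'
  obtain ⟨j, hj, hCj⟩ := exists_j hC h1
  obtain ⟨z, hz⟩ := exists_sq (u + v * j)
  have hz' : C z ^ 2 = u - v * j := by
    rw [← map_pow, hz, map_add, map_mul, hu, hv, hCj]; ring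
  have hN : (z * C z) ^ 2 = u ^ 2 + v ^ 2 := by
    rw [mul_pow, hz, hz']; linear_combination (-v ^ 2) * hj
  refine ⟨z * C z, ?_, by rw [map_mul, hCC, mul_comm], hN⟩
  intro h0
  rw [h0] at hN
  exact hne (by simpa using hN.symm)

lemma pos_nat (hC : C * C = 1) (h1 : C ≠ 1) (n : ℕ) : Pos C ((n + 1 : ℕ) : Qb) := by
  have hone : Pos C 1 := ⟨1, one_ne_zero, map_one C, one_pow 2⟩
  induction n with
  | zero => simpa using hone
  | succ n ih => rw [Nat.cast_succ]; exact ih.add hC h1 hone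

lemma pos_rat (hC : C * C = 1) (h1 : C ≠ 1) {q : ℚ} (hq : 0 < q) : Pos C (q : Qb) := by
  have hq0 : (q : Qb) ≠ 0 := by exact_mod_cast hq.ne'
  rcases pos_or hC h1 hq0 (map_ratCast C q) with h | h
  · exact h
  · exfalso
    obtain ⟨m, hm⟩ : ∃ m : ℕ, q.den = m + 1 := ⟨q.den - 1, by have := q.den_pos; omega⟩
    obtain ⟨k, hk⟩ : ∃ k : ℕ, q.num = ((k + 1 : ℕ) : ℤ) :=
      ⟨q.num.toNat - 1, by have := Rat.num_pos.2 hq; omega⟩
    have h2 := h.mul (pos_nat hC h1 m)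
    have h3 : -(q : Qb) * ((m + 1 : ℕ) : Qb) = -((k + 1 : ℕ) : Qb) := by
      have h4 : q * ((m + 1 : ℕ) : ℚ) = ((k + 1 : ℕ) : ℚ) := by
        rw [← hm, Rat.mul_den_eq_num, hk]; norm_cast
      rw [neg_mul]
      congr 1
      exact_mod_cast h4
    rw [h3] at h2
    exact (pos_nat hC h1 k).not_neg hC h1 h2

/-- The fixed field of an automorphism. -/
def fixF (C : Qb ≃ₐ[ℚ] Qb) : Subfield Qb where
  carrier := {x | C x = x}
  one_mem' := map_one C
  zero_mem' := map_zero C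
  mul_mem' {a b} ha hb := by simp only [Set.mem_ofPred_eq] at *; rw [map_mul, ha, hb]
  add_mem' {a b} ha hb := by simp only [Set.mem_ofPred_eq] at *; rw [map_add, ha, hb]
  neg_mem' {a} ha := by simp only [Set.mem_ofPred_eq] at *; rw [map_neg, ha]
  inv_mem' a ha := by simp only [Set.mem_ofPred_eq] at *; rw [map_inv₀, ha]

/-- The cone of squares in the fixed field of an involution. -/
def cone (hC : C * C = 1) (h1 : C ≠ 1) : RingCone (fixF C) where
  carrier := {x | x = 0 ∨ Pos C x}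
  zero_mem' := Or.inl rfl
  one_mem' := Or.inr ⟨1, one_ne_zero, map_one C, one_pow 2⟩
  add_mem' := by
    rintro a b (rfl | ha) (rfl | hb)
    · simp
    · simpa using Or.inr hb
    · simpa using Or.inr ha
    · exact Or.inr (ha.add hC h1 hb)
  mul_mem' := by
    rintro a b (rfl | ha) (rfl | hb)
    · simp
    · simp
    · simp
    · exact Or.inr (ha.mul hb)
  eq_zero_of_mem_of_neg_mem' := by
    rintro a (ha | ha) (hb | hb)
    · exact ha
    · exact ha
    · exact neg_eq_zero.1 hb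
    · exact absurd hb (ha.not_neg hC h1)

lemma exists_rat_between (hC : C * C = 1) (h1 : C ≠ 1) {u v : Qb} (hu : C u = u) (hv : C v = v)
    (h : Pos C (v - u)) : ∃ q : ℚ, Pos C (q - u) ∧ Pos C (v - q) := by
  classical
  have : HasMemOrNegMem (cone hC h1) := ⟨fun a => by
    by_cases h0 : a = 0
    · exact Or.inl (Or.inl h0)
    · rcases pos_or hC h1 (x := a) (by simpa using h0) a.2 with h | h
      · exact Or.inl (Or.inr h)
      · exact Or.inr (Or.inr h)⟩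
  let : LinearOrder (fixF C) := .mkOfAddGroupCone (cone hC h1)
  have : IsOrderedRing (fixF C) := IsOrderedRing.mkOfCone (cone hC h1)
  have hlt : ∀ a b : fixF C, a < b ↔ Pos C (b - a) := by
    intro a b
    rw [lt_iff_le_and_ne]
    change (b - a = 0 ∨ Pos C ((b - a : fixF C) : Qb)) ∧ a ≠ b ↔ _
    constructor
    · rintro ⟨h | h, hne⟩
      · exact absurd (sub_eq_zero.1 h).symm hne
      · simpa using h
    · intro h
      refine ⟨Or.inr (by simpa using h), ?_⟩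
      rintro rfl
      exact h.ne_zero (sub_self _)
  have : Archimedean (fixF C) := archimedean_of_algebraic fun x => by
    have : IsAlgebraic ℚ ((fixF C).subtype.toRatAlgHom x) := Algebra.IsAlgebraic.isAlgebraic _
    exact (isAlgebraic_algHom_iff _ (fixF C).subtype.injective).1 this
  obtain ⟨q, hq1, hq2⟩ := exists_rat_btwn ((hlt ⟨u, hu⟩ ⟨v, hv⟩).2 h)
  exact ⟨q, by simpa using (hlt _ _).1 hq1, by simpa using (hlt _ _).1 hq2⟩

/-- There is no four-element fan of orderings on a field of algebraic numbers. -/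
theorem no_fan {C₁ C₂ C₃ C₄ : Qb ≃ₐ[ℚ] Qb} (h₁ : C₁ * C₁ = 1) (h₂ : C₂ * C₂ = 1)
    (h₃ : C₃ * C₃ = 1) (h₄ : C₄ * C₄ = 1) (n₁ : C₁ ≠ 1) (hrel : C₁ * C₂ = C₃ * C₄)
    {s t : Qb} (hs : s ≠ 0) (ht : t ≠ 0)
    (s₁ : C₁ s = s) (s₂ : C₂ s = s) (s₃ : C₃ s = -s) (s₄ : C₄ s = -s)
    (t₁ : C₁ t = t) (t₂ : C₂ t = -t) (t₃ : C₃ t = t) (t₄ : C₄ t = -t) : False := by
  have hne : ∀ {C : Qb ≃ₐ[ℚ] Qb} {y : Qb}, y ≠ 0 → C y = -y → C ≠ 1 := by
    rintro C y hy h rfl
    have : (2 : Qb) * y = 0 := by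
      rw [AlgEquiv.one_apply] at h
      linear_combination h
    simp [hy] at this
  have n₂ := hne ht t₂
  have n₃ := hne hs s₃
  have n₄ := hne hs s₄
  set a := s ^ 2 with ha
  set b := t ^ 2 with hb
  have a₁ : Pos C₁ a := pos_sq hs s₁
  have a₂ : Pos C₂ a := pos_sq hs s₂
  have a₃ : Pos C₃ (-a) := pos_neg_of_neg h₃ n₃ hs s₃
  have a₄ : Pos C₄ (-a) := pos_neg_of_neg h₄ n₄ hs s₄
  have b₁ : Pos C₁ b := pos_sq ht t₁
  have b₂ : Pos C₂ (-b) := pos_neg_of_neg h₂ n₂ ht t₂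
  have b₃ : Pos C₃ b := pos_sq ht t₃
  have b₄ : Pos C₄ (-b) := pos_neg_of_neg h₄ n₄ ht t₄
  have fa₃ : C₃ a = a := by simpa using a₃.fixed
  have fa₄ : C₄ a = a := by simpa using a₄.fixed
  have fb₂ : C₂ b = b := by simpa using b₂.fixed
  have sgn : ∀ {C : Qb ≃ₐ[ℚ] Qb}, C * C = 1 → C ≠ 1 → ∀ {z y : Qb}, y ^ 2 = z →
      (Pos C z → C y = y) ∧ (Pos C (-z) → C y = -y) := by
    intro C hC n z y hy
    constructor
    · intro h
      have hy0 : y ≠ 0 := by rintro rfl; exact h.ne_zero (by simpa using hy.symm)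
      exact (fixed_or_neg h.fixed hy).resolve_right fun h' =>
        h.not_neg hC n (hy ▸ pos_neg_of_neg hC n hy0 h')
    · intro h
      have hy0 : y ≠ 0 := by rintro rfl; exact h.ne_zero (by simpa using hy.symm)
      exact (fixed_or_neg (by simpa using h.fixed) hy).resolve_left fun h' =>
        (pos_sq hy0 h').not_neg hC n (hy ▸ h)
  have key : ∀ (w : Qb) (q : ℚ), w ≠ 0 → C₁ w = w → C₃ w = w → C₄ w = w → 0 < q →
      (Pos C₂ (a * w ^ 2 + q * b) → Pos C₃ (-(a * w ^ 2 + q * b))) ∧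
      (Pos C₂ (-(a * w ^ 2 + q * b)) → Pos C₃ (a * w ^ 2 + q * b)) := by
    intro w q hw w₁ w₃ w₄ hq
    set z := a * w ^ 2 + q * b with hz
    have z₁ : Pos C₁ z := (a₁.mul (pos_sq hw w₁)).add h₁ n₁ ((pos_rat h₁ n₁ hq).mul b₁)
    have z₄ : Pos C₄ (-z) := by
      have := (a₄.mul (pos_sq hw w₄)).add h₄ n₄ ((pos_rat h₄ n₄ hq).mul b₄)
      convert this using 1
      rw [hz]; ring
    have fz₃ : C₃ z = z := by
      rw [hz, map_add, map_mul, map_mul, fa₃, map_pow C₃ w, w₃, map_ratCast, b₃.fixed]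
    obtain ⟨y, hy⟩ := exists_sq z
    have hy0 : y ≠ 0 := by rintro rfl; exact z₁.ne_zero (by simpa using hy.symm)
    have e₁ := (sgn h₁ n₁ hy).1 z₁
    have e₄ := (sgn h₄ n₄ hy).2 z₄
    have e := congrArg (fun C : Qb ≃ₐ[ℚ] Qb => C y) hrel
    simp only [AlgEquiv.mul_apply] at e
    rw [e₄, map_neg] at e
    constructor
    · intro h
      rw [(sgn h₂ n₂ hy).1 h, e₁] at e
      exact hy ▸ pos_neg_of_neg h₃ n₃ hy0 (by linear_combination e)
    · intro h
      rw [(sgn h₂ n₂ hy).2 h, map_neg, e₁] at e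
      exact hy ▸ pos_sq hy0 (by linear_combination e)
  have hb0 : b ≠ 0 := b₁.ne_zero
  have ha0 : a ≠ 0 := a₁.ne_zero
  have hone : Pos C₂ 1 := ⟨1, one_ne_zero, map_one _, one_pow 2⟩
  have hinv : Pos C₂ (-b)⁻¹ := by
    have := b₂.mul (pos_sq (inv_ne_zero hb0) (by rw [map_inv₀, fb₂]))
    convert this using 1
    field_simp
  have hε : Pos C₂ (a ^ 2 * (-b)⁻¹) := (pos_sq ha0 a₂.fixed).mul hinv
  have u₀ : Pos C₂ (a * (-b)⁻¹) := a₂.mul hinv
  have u₁ : Pos C₂ (a * a ^ 2 * (-b)⁻¹) := (a₂.mul (pos_sq ha0 a₂.fixed)).mul hinv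
  have hq : ∀ u, Pos C₂ u → ∃ q : ℚ, 0 < q ∧ Pos C₂ (q - u) ∧
      Pos C₂ (u + a ^ 2 * (-b)⁻¹ - q) := by
    intro u hu
    obtain ⟨q, hq1, hq2⟩ := exists_rat_between h₂ n₂ hu.fixed (hu.add h₂ n₂ hε).fixed
      (by simpa using hε)
    refine ⟨q, ?_, hq1, hq2⟩
    have hq3 : Pos C₂ (q : Qb) := by simpa using hq1.add h₂ n₂ hu
    rcases lt_trichotomy q 0 with h | h | h
    · exact absurd (by simpa using pos_rat h₂ n₂ (neg_pos.2 h)) (hq3.not_neg h₂ n₂)
    · exact absurd (by simp [h]) hq3.ne_zero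
    · exact h
  obtain ⟨q₀, hq₀, l₀, r₀⟩ := hq _ u₀
  obtain ⟨q₁, hq₁, l₁, r₁⟩ := hq _ u₁
  have k₀ := (key 1 q₀ one_ne_zero (map_one _) (map_one _) (map_one _) hq₀).2 (by
    convert l₀.mul b₂ using 1
    field_simp; ring)
  have k₁ := (key a q₁ ha0 a₁.fixed fa₃ fa₄ hq₁).2 (by
    convert l₁.mul b₂ using 1
    field_simp; ring)
  have k₂ := (key (a + 1) (q₀ + q₁) (a₂.add h₂ n₂ hone).ne_zero
    (by rw [map_add, a₁.fixed, map_one]) (by rw [map_add, fa₃, map_one])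
    (by rw [map_add, fa₄, map_one]) (by positivity)).1 (by
    convert (r₀.add h₂ n₂ r₁).mul b₂ using 1
    push_cast
    field_simp; ring)
  have k := (k₀.add h₃ n₃ k₁).add h₃ n₃ k₂
  have k' : Pos C₃ (a ^ 2 + a ^ 2) := (pos_sq ha0 fa₃).add h₃ n₃ (pos_sq ha0 fa₃)
  refine k'.not_neg h₃ n₃ ?_
  convert k using 1
  push_cast
  ring

/-- An involution has a conjugate that acts differently on a suitable square root. -/
theorem exists_conj (hC : C * C = 1) (h1 : C ≠ 1) :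
    ∃ (t : Qb) (s : Qb ≃ₐ[ℚ] Qb), t ≠ 0 ∧ C t = t ∧ (s⁻¹ * C * s) t = -t := by
  obtain ⟨r₀, hr0, hr, hr2⟩ := pos_nat hC h1 1
  obtain ⟨r, hrp, hr2'⟩ : ∃ r, Pos C r ∧ r ^ 2 = 2 := by
    rcases pos_or hC h1 hr0 hr with h | h
    · exact ⟨r₀, h, by simpa using hr2⟩
    · exact ⟨-r₀, h, by simpa using hr2⟩
  obtain ⟨s, hs⟩ : ∃ s : Qb ≃ₐ[ℚ] Qb, s r ≠ r := by
    by_contra hcon
    push Not at hcon
    obtain ⟨q, hq⟩ := (InfiniteGalois.mem_range_algebraMap_iff_fixed (k := ℚ) r).2 hcon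
    rw [← hq, ← map_pow] at hr2'
    have h2 : q ^ 2 = 2 := by
      apply (algebraMap ℚ Qb).injective
      rw [hr2']; simp
    have h3 : ((|q| : ℚ) : ℝ) = √2 := by
      rw [Rat.cast_abs, ← Real.sqrt_sq_eq_abs]
      congr 1
      exact_mod_cast h2
    exact irrational_sqrt_two ⟨_, h3⟩
  have hs' : s r = -r :=
    (sq_eq_sq_iff_eq_or_eq_neg.1 (by rw [← map_pow, hr2', map_ofNat])).resolve_left hs
  obtain ⟨t, ht0, ht, htr⟩ := id hrp
  refine ⟨t, s, ht0, ht, ?_⟩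
  have h2 : (s t) ^ 2 = -r := by rw [← map_pow, htr, hs']
  have h3 : C (s t) = -s t :=
    (fixed_or_neg (by rw [map_neg, hrp.fixed]) h2).resolve_left fun h =>
      hrp.not_neg hC h1 (h2 ▸ pos_sq (by simpa using ht0) h)
  rw [AlgEquiv.mul_apply, AlgEquiv.mul_apply, h3, map_neg, ← AlgEquiv.mul_apply, inv_mul_cancel,
    AlgEquiv.one_apply]

/-- A quadratic character with closed kernel is given by a square root. -/
theorem exists_root {W : Subgroup (Qb ≃ₐ[ℚ] Qb)} (hW : IsClosed (W : Set (Qb ≃ₐ[ℚ] Qb)))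
    {D : Qb ≃ₐ[ℚ] Qb} (hD : D * D = 1) (hDW : D ∉ W) :
    ∃ t : Qb, t ≠ 0 ∧ (∀ E, E ∈ W → D * E * D ∈ W → E t = t) ∧
      ∀ E, D * E ∈ W → E * D ∈ W → E t = -t := by
  have h := InfiniteGalois.fixingSubgroup_fixedField (k := ℚ) (K := Qb) ⟨W, hW⟩
  have hDD : ∀ x, D (D x) = x := fun x => by
    rw [← AlgEquiv.mul_apply, hD, AlgEquiv.one_apply]
  obtain ⟨y, hy, hDy⟩ : ∃ y, (∀ E ∈ W, E y = y) ∧ D y ≠ y := by
    by_contra hcon
    push Not at hcon
    apply hDW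
    change D ∈ (⟨W, hW⟩ : ClosedSubgroup (Qb ≃ₐ[ℚ] Qb)).1
    rw [← h, IntermediateField.mem_fixingSubgroup_iff]
    intro y hy
    exact hcon y fun E hE => (IntermediateField.mem_fixedField_iff _ _).1 hy E hE
  refine ⟨y - D y, sub_ne_zero.2 hDy.symm, fun E h1 h2 => ?_, fun E h1 h2 => ?_⟩
  · have h3 := hy _ h2
    simp only [AlgEquiv.mul_apply] at h3
    have h4 : E (D y) = D y := by rw [← hDD (E (D y)), h3]
    rw [map_sub, hy E h1, h4]
  · have h3 := hy _ h1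
    have h4 := hy _ h2
    simp only [AlgEquiv.mul_apply] at h3 h4
    have h5 : E y = D y := by rw [← hDD (E y), h3]
    rw [map_sub, h4, h5, neg_sub]

end Pool.Agent.Work.MP_0f2eae_al
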