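import Pool.Agent.Work.MP_0f2eae_al.Seven

/-!
The conjecture cannot hold for both `(0, 4)` and `(0, 7)`.
-/

namespace Pool.Agent.Work.MP_0f2eae_al

lemma exists_W {Θ₄ : AL 4 →* (Qb ≃ₐ[ℚ] Qb)} (hc₄ : Continuous Θ₄)
    (hk₄ : ∀ φ, Θ₄ φ = 1 ↔ φ ∈ KK 4) {Θ₇ : AL 7 →* (Qb ≃ₐ[ℚ] Qb)} (ho₇ : IsOpenMap Θ₇)
    (hk₇ : ∀ φ, Θ₇ φ = 1 ↔ φ ∈ KK 7) (F : Forget) (t : Qb) :
    ∃ W : Subgroup (Qb ≃ₐ[ℚ] Qb), IsClosed (W : Set (Qb ≃ₐ[ℚ] Qb)) ∧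
      ∀ φ : pure7, Θ₇ φ.1 ∈ W ↔ Θ₄ (F.hom φ) t = t := by
  let W₀ : Subgroup pure7 := (MulAction.stabilizer (Qb ≃ₐ[ℚ] Qb) t).comap (Θ₄.comp F.hom)
  have h₀ : IsOpen (W₀ : Set pure7) :=
    (stabilizer_isOpen_of_isIntegral t).preimage (hc₄.comp F.continuous_hom)
  refine ⟨W₀.map (Θ₇.comp pure7.subtype), Subgroup.isClosed_of_isOpen _ ?_, fun φ => ?_⟩
  · exact (ho₇.comp isOpen_pure7.isOpenMap_subtype_val) _ h₀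
  · refine ⟨?_, fun h => ⟨φ, h, rfl⟩⟩
    rintro ⟨w, hw, hwφ⟩
    have h1 : Θ₇ (w⁻¹ * φ).1 = 1 := by
      have : Θ₇ w.1 = Θ₇ φ.1 := hwφ
      rw [Subgroup.coe_mul, Subgroup.coe_inv, map_mul, map_inv, this, inv_mul_cancel]
    have h2 := (hk₄ _).2 (F.hom_KK ((hk₇ _).1 h1))
    rw [map_mul, map_mul, map_inv, map_inv, inv_mul_eq_one] at h2
    rw [← h2]
    exact hw

lemma exists_sign {W : Subgroup (Qb ≃ₐ[ℚ] Qb)} (hW : IsClosed (W : Set (Qb ≃ₐ[ℚ] Qb)))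
    {Θ Φ : pure7 →* (Qb ≃ₐ[ℚ] Qb)} {t : Qb} (ht : t ≠ 0) (h : ∀ φ, Θ φ ∈ W ↔ Φ φ t = t)
    {d : pure7} (hd : d * d = 1) (hdt : Φ d t = -t) :
    ∃ s : Qb, s ≠ 0 ∧ (∀ e, Φ e t = t → Θ e s = s) ∧ ∀ e, Φ e t = -t → Θ e s = -s := by
  have hne : Θ d ∉ W := by
    rw [h, hdt]
    intro h0
    have : (2 : Qb) * t = 0 := by linear_combination -h0
    simp [ht] at this
  obtain ⟨s, hs, h1, h2⟩ := exists_root hW (D := Θ d) (by rw [← map_mul, hd, map_one]) hne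
  refine ⟨s, hs, fun e he => h1 _ ((h e).2 he) ?_, fun e he => h2 _ ?_ ?_⟩
  · rw [← map_mul, ← map_mul, h]
    simp [hdt, he]
  · rw [← map_mul, h]
    simp [hdt, he]
  · rw [← map_mul, h]
    simp [hdt, he]

theorem main : ¬ (Conj 4 ∧ Conj 7) := by
  rintro ⟨h4, h7⟩
  obtain ⟨Θ₄, hc₄, -, hs₄, hk₄⟩ := h4.exists_theta
  obtain ⟨Θ₇, -, ho₇, -, hk₇⟩ := h7.exists_theta
  obtain ⟨κ₀, κ₁, t, h₀, h₁, ht, hκ, t₀, t₁⟩ := exists_refl_pair hs₄ hk₄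
  let c : ∀ {a b : AL 4}, Refl a → Refl b → pure7 :=
    fun ha hb => ⟨glue ha hb, glue_mem_pure7 ha hb⟩
  have csq : ∀ {a b : AL 4} (ha : Refl a) (hb : Refl b), c ha hb * c ha hb = 1 :=
    fun ha hb => Subtype.ext (glue_sq ha hb)
  have Csq : ∀ {a b : AL 4} (ha : Refl a) (hb : Refl b),
      Θ₇ (glue ha hb) * Θ₇ (glue ha hb) = 1 :=
    fun ha hb => by rw [← map_mul, glue_sq, map_one]
  have f1 : ∀ {a b : AL 4} (ha : Refl a) (hb : Refl b),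
      (Θ₄.comp forget1.hom) (c ha hb) = Θ₄ a := fun ha hb => congrArg Θ₄ (forget1_glue ha hb)
  have f2 : ∀ {a b : AL 4} (ha : Refl a) (hb : Refl b),
      (Θ₄.comp forget2.hom) (c ha hb) = Θ₄ b := fun ha hb => congrArg Θ₄ (forget2_glue ha hb)
  obtain ⟨W₁, hW₁, hW₁'⟩ := exists_W hc₄ hk₄ ho₇ hk₇ forget1 t
  obtain ⟨W₂, hW₂, hW₂'⟩ := exists_W hc₄ hk₄ ho₇ hk₇ forget2 t
  obtain ⟨s, hs, sp, sn⟩ := exists_sign hW₁ (Θ := Θ₇.comp pure7.subtype)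
    (Φ := Θ₄.comp forget1.hom) ht hW₁' (csq h₁ h₀) (by rw [f1, t₁])
  obtain ⟨r, hr, rp, rn⟩ := exists_sign hW₂ (Θ := Θ₇.comp pure7.subtype)
    (Φ := Θ₄.comp forget2.hom) ht hW₂' (csq h₀ h₁) (by rw [f2, t₁])
  refine no_fan (Csq h₀ h₀) (Csq h₀ h₁) (Csq h₁ h₀) (Csq h₁ h₁) ?_
    (by rw [← map_mul, ← map_mul, glue_rel]) hs hr
    (sp (c h₀ h₀) (by rw [f1, t₀])) (sp (c h₀ h₁) (by rw [f1, t₀]))
    (sn (c h₁ h₀) (by rw [f1, t₁])) (sn (c h₁ h₁) (by rw [f1, t₁]))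
    (rp (c h₀ h₀) (by rw [f2, t₀])) (rn (c h₀ h₁) (by rw [f2, t₁]))
    (rp (c h₁ h₀) (by rw [f2, t₀])) (rn (c h₁ h₁) (by rw [f2, t₁]))
  intro h
  have := (hk₄ _).2 (forget1.hom_KK (φ := c h₀ h₀) ((hk₇ _).1 h))
  exact hκ ((f1 h₀ h₀).symm.trans this)

end Pool.Agent.Work.MP_0f2eae_al
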