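import Pool.Agent.Work.MP_0f2eae_al.Four

/-!
Gluing and forgetful maps for the seven-punctured sphere group.
-/

namespace Pool.Agent.Work.MP_0f2eae_al

variable {P : Type}
  [Group P] [TopologicalSpace P] [IsTopologicalGroup P] [CompactSpace P]
  [TotallyDisconnectedSpace P]

lemma gen7_six : gen 7 6 = (gen 7 0 * gen 7 1 * gen 7 2 * (gen 7 3 * gen 7 4 * gen 7 5))⁻¹ := by
  have h : gen 7 0 * (gen 7 1 * (gen 7 2 * (gen 7 3 * (gen 7 4 * (gen 7 5 * gen 7 6))))) = 1 := by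
    simpa [List.ofFn_succ] using prod_gen (n := 7)
  rw [eq_comm, inv_eq_iff_mul_eq_one, ← h]
  group

lemma ext7 {f g : Hat (Pi0 7) →ₜ* P} (h : ∀ i, i ≠ 6 → f (gen 7 i) = g (gen 7 i)) : f = g := by
  refine chom_ext fun i => ?_
  by_cases hi : i = 6
  · subst hi
    simp only [gen7_six, map_inv, map_mul]
    rw [h 0 (by decide), h 1 (by decide), h 2 (by decide), h 3 (by decide), h 4 (by decide),
      h 5 (by decide)]
  · exact h i hi

/-- The inclusion of the first block. -/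
noncomputable def j1 : Hat (Pi0 4) →ₜ* Hat (Pi0 7) :=
  mkHom ![gen 7 0, gen 7 1, gen 7 2, (gen 7 0 * gen 7 1 * gen 7 2)⁻¹] (by
    simp [List.ofFn_succ, mul_assoc])

/-- The inclusion of the second block. -/
noncomputable def j2 : Hat (Pi0 4) →ₜ* Hat (Pi0 7) :=
  mkHom ![gen 7 3, gen 7 4, gen 7 5, (gen 7 3 * gen 7 4 * gen 7 5)⁻¹] (by
    simp [List.ofFn_succ, mul_assoc])

/-- The projection to the first block. -/
noncomputable def p1 : Hat (Pi0 7) →ₜ* Hat (Pi0 4) :=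
  mkHom ![gen 4 0, gen 4 1, gen 4 2, 1, 1, 1, gen 4 3] (by simp [List.ofFn_succ, rel4])

/-- The projection to the second block. -/
noncomputable def p2 : Hat (Pi0 7) →ₜ* Hat (Pi0 4) :=
  mkHom ![1, 1, 1, gen 4 0, gen 4 1, gen 4 2, gen 4 3] (by simp [List.ofFn_succ, rel4])

/-- Gluing two endomorphisms. -/
noncomputable def glueHom (k₁ k₂ : Hat (Pi0 4) →ₜ* Hat (Pi0 4)) : Hat (Pi0 7) →ₜ* Hat (Pi0 7) :=
  mkHom ![j1 (k₁ (gen 4 0)), j1 (k₁ (gen 4 1)), j1 (k₁ (gen 4 2)), j2 (k₂ (gen 4 0)),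
    j2 (k₂ (gen 4 1)), j2 (k₂ (gen 4 2)), j2 (k₂ (gen 4 3)) * j1 (k₁ (gen 4 3))] (by
      simp [List.ofFn_succ, mul_assoc, gen4_three])

lemma glueHom_j1 (k₁ k₂ : Hat (Pi0 4) →ₜ* Hat (Pi0 4)) (x : Hat (Pi0 4)) :
    glueHom k₁ k₂ (j1 x) = j1 (k₁ x) := by
  have : (glueHom k₁ k₂).comp j1 = j1.comp k₁ := chom_ext fun i => by
    fin_cases i
    · simp [glueHom, j1]
    · simp [glueHom, j1]
    · simp [glueHom, j1]
    · simp [glueHom, j1, gen4_three]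
  exact DFunLike.congr_fun this x

lemma glueHom_j2 (k₁ k₂ : Hat (Pi0 4) →ₜ* Hat (Pi0 4)) (x : Hat (Pi0 4)) :
    glueHom k₁ k₂ (j2 x) = j2 (k₂ x) := by
  have : (glueHom k₁ k₂).comp j2 = j2.comp k₂ := chom_ext fun i => by
    fin_cases i
    · simp [glueHom, j2]
    · simp [glueHom, j2]
    · simp [glueHom, j2]
    · simp [glueHom, j2, gen4_three]
  exact DFunLike.congr_fun this x

lemma gen7_cases (i : Fin 7) (hi : i ≠ 6) :
    (∃ k, gen 7 i = j1 (gen 4 k)) ∨ ∃ k, gen 7 i = j2 (gen 4 k) := by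
  fin_cases i
  · exact Or.inl ⟨0, by simp [j1]⟩
  · exact Or.inl ⟨1, by simp [j1]⟩
  · exact Or.inl ⟨2, by simp [j1]⟩
  · exact Or.inr ⟨0, by simp [j2]⟩
  · exact Or.inr ⟨1, by simp [j2]⟩
  · exact Or.inr ⟨2, by simp [j2]⟩
  · exact absurd rfl hi

lemma ext7' {f g : Hat (Pi0 7) →ₜ* P} (h1 : ∀ x, f (j1 x) = g (j1 x))
    (h2 : ∀ x, f (j2 x) = g (j2 x)) : f = g := by
  refine ext7 fun i hi => ?_
  rcases gen7_cases i hi with ⟨k, hk⟩ | ⟨k, hk⟩
  · rw [hk, h1]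
  · rw [hk, h2]

lemma Refl.apply_apply {κ : AL 4} (h : Refl κ) (x : Hat (Pi0 4)) : ap κ (ap κ x) = x :=
  congrArg (fun φ : AL 4 => ap φ x) h.sq

lemma glueHom_sq {κ₁ κ₂ : AL 4} (h₁ : Refl κ₁) (h₂ : Refl κ₂) :
    (glueHom (toCH κ₁) (toCH κ₂)).comp (glueHom (toCH κ₁) (toCH κ₂)) =
      ContinuousMonoidHom.id _ :=
  ext7' (fun x => by simp [glueHom_j1, h₁.apply_apply])
    (fun x => by simp [glueHom_j2, h₂.apply_apply])

lemma glueHom_conj {κ₁ κ₂ : AL 4} (h₁ : Refl κ₁) (h₂ : Refl κ₂) (i : Fin 7) :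
    ∃ γ, glueHom (toCH κ₁) (toCH κ₂) (gen 7 i) = γ * (gen 7 i)⁻¹ * γ⁻¹ := by
  by_cases hi : i = 6
  · subst hi
    refine ⟨(gen 7 0 * gen 7 1 * gen 7 2)⁻¹, ?_⟩
    have : glueHom (toCH κ₁) (toCH κ₂) (gen 7 6) =
        gen 7 3 * gen 7 4 * gen 7 5 * (gen 7 0 * gen 7 1 * gen 7 2) := by
      simp [glueHom, h₁.last, h₂.last, j1, j2]
    rw [this, gen7_six]
    group
  rcases gen7_cases i hi with ⟨k, hk⟩ | ⟨k, hk⟩
  · obtain ⟨γ, hγ⟩ := h₁.conj k
    exact ⟨j1 γ, by rw [hk, glueHom_j1, toCH_apply, hγ]; simp⟩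
  · obtain ⟨γ, hγ⟩ := h₂.conj k
    exact ⟨j2 γ, by rw [hk, glueHom_j2, toCH_apply, hγ]; simp⟩

/-- The glued involution. -/
noncomputable def glue {κ₁ κ₂ : AL 4} (h₁ : Refl κ₁) (h₂ : Refl κ₂) : AL 7 :=
  ⟨mkAut _ _ (glueHom_sq h₁ h₂) (glueHom_sq h₁ h₂), oneHat⁻¹, isUnitHat_neg, 1, fun i => by
    simpa [powHat_inv_oneHat] using glueHom_conj h₁ h₂ i⟩

lemma glue_apply {κ₁ κ₂ : AL 4} (h₁ : Refl κ₁) (h₂ : Refl κ₂) (x : Hat (Pi0 7)) :
    ap (glue h₁ h₂) x = glueHom (toCH κ₁) (toCH κ₂) x := rfl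

lemma glue_sq {κ₁ κ₂ : AL 4} (h₁ : Refl κ₁) (h₂ : Refl κ₂) : glue h₁ h₂ * glue h₁ h₂ = 1 := by
  refine AL_ext fun x => ?_
  exact DFunLike.congr_fun (glueHom_sq h₁ h₂) x

lemma glue_rel {κ₀ κ₁ : AL 4} (h₀ : Refl κ₀) (h₁ : Refl κ₁) :
    glue h₀ h₀ * glue h₀ h₁ = glue h₁ h₀ * glue h₁ h₁ := by
  have : (glueHom (toCH κ₀) (toCH κ₀)).comp (glueHom (toCH κ₀) (toCH κ₁)) =
      (glueHom (toCH κ₁) (toCH κ₀)).comp (glueHom (toCH κ₁) (toCH κ₁)) :=
    ext7' (fun x => by simp [glueHom_j1, h₀.apply_apply, h₁.apply_apply])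
      (fun x => by simp [glueHom_j2])
  refine AL_ext fun x => ?_
  exact DFunLike.congr_fun this x

/-- The elementary abelian group of order eight. -/
abbrev E8 : Type := Multiplicative (ZMod 2 × ZMod 2 × ZMod 2)

/-- Its seven nontrivial elements. -/
def v7 : Fin 7 → E8 := fun i => Multiplicative.ofAdd
  (![(1, 0, 0), (0, 1, 0), (0, 0, 1), (1, 1, 0), (1, 0, 1), (0, 1, 1), (1, 1, 1)] i)

/-- A finite abelian quotient that separates the generators. -/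
noncomputable def h7 : Hat (Pi0 7) →ₜ* E8 :=
  mkHom v7 (by
    decide)

lemma h7_conj (α x : Hat (Pi0 7)) : h7 (α * x * α⁻¹) = h7 x := by
  have : ∀ a b : E8, a * b * a⁻¹ = b := fun a b => by simp
  rw [map_mul, map_mul, map_inv]
  exact this _ _

lemma h7_sq (y : E8) : y * y = 1 := by
  have : ∀ a : E8, a * a = 1 := by decide
  exact this y

/-- The pure automorphisms. -/
def pure7 : Subgroup (AL 7) where
  carrier := {φ | ∀ x, h7 (ap φ x) = h7 x}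
  one_mem' _ := rfl
  mul_mem' {_ ψ} hφ hψ x := (hφ (ap ψ x)).trans (hψ x)
  inv_mem' {φ} hφ x := (hφ _).symm.trans (congrArg h7 (ap_ap_inv φ x))

lemma mem_pure7 {φ : AL 7} : φ ∈ pure7 ↔ ∀ i, h7 (ap φ (gen 7 i)) = h7 (gen 7 i) :=
  ⟨fun h _ => h _, fun h x => DFunLike.congr_fun (chom_ext (f := h7.comp (toCH φ)) (g := h7) h) x⟩

lemma isOpen_pure7 : IsOpen (pure7 : Set (AL 7)) := by
  have : (pure7 : Set (AL 7)) =
      ⋂ i, (fun φ : AL 7 => h7 (ap φ (gen 7 i))) ⁻¹' {h7 (gen 7 i)} := by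
    ext φ
    simp [mem_pure7]
  rw [this]
  exact isOpen_iInter_of_finite fun i =>
    (isOpen_discrete _).preimage (h7.continuous_toFun.comp (continuous_evalLac _))

lemma pure_lac {φ : AL 7} (hφ : φ ∈ pure7) {a : ZHat} (ha : IsUnitHat a) (h : Lac a φ)
    (i : Fin 7) : ∃ α, ap φ (gen 7 i) = α * powHat (gen 7 i) a * α⁻¹ := by
  obtain ⟨σ, hσ⟩ := h
  obtain ⟨α, hα⟩ := hσ i
  have h1 := hφ (gen 7 i)
  have h2 : h7 (powHat (gen 7 (σ i)) a) = h7 (gen 7 (σ i)) :=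
    (map_powHat h7 h7.continuous_toFun _ a).trans (powHat_of_sq (h7_sq _) ha)
  rw [hα, h7_conj, h2] at h1
  simp only [h7, mkHom_gen] at h1
  have hinj : Function.Injective v7 := by decide
  rw [hinj h1] at hα
  exact ⟨α, hα⟩

lemma conjLac_mem_pure7 (g : Hat (Pi0 7)) : conjLac g ∈ pure7 := fun x => h7_conj g x

lemma glue_mem_pure7 {κ₁ κ₂ : AL 4} (h₁ : Refl κ₁) (h₂ : Refl κ₂) : glue h₁ h₂ ∈ pure7 := by
  refine mem_pure7.2 fun i => ?_
  obtain ⟨γ, hγ⟩ := glueHom_conj h₁ h₂ i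
  rw [glue_apply, hγ, h7_conj, map_inv, inv_eq_iff_mul_eq_one, h7_sq]

/-- The data of a forgetful map. -/
structure Forget where
  /-- the projection -/
  p : Hat (Pi0 7) →ₜ* Hat (Pi0 4)
  /-- the section -/
  j : Hat (Pi0 4) →ₜ* Hat (Pi0 7)
  pj : ∀ x, p (j x) = x
  cases : ∀ i, i ≠ 6 → p (gen 7 i) = 1 ∨ j (p (gen 7 i)) = gen 7 i
  surj : ∀ i, ∃ i', p (gen 7 i') = gen 4 i
  p_range : ∀ i, p (gen 7 i) ∈ (eta (Pi0 4)).range
  j_range : ∀ i, j (gen 4 i) ∈ (eta (Pi0 7)).range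

/-- The first forgetful map. -/
noncomputable def forget1 : Forget where
  p := p1
  j := j1
  pj x := DFunLike.congr_fun (chom_ext (f := p1.comp j1) (g := ContinuousMonoidHom.id _)
    fun i => by fin_cases i <;> simp [p1, j1, gen4_three]) x
  cases i hi := by
    fin_cases i <;> first | exact absurd rfl hi | simp [p1, j1]
  surj i := by
    fin_cases i
    · exact ⟨0, by simp [p1]⟩
    · exact ⟨1, by simp [p1]⟩
    · exact ⟨2, by simp [p1]⟩
    · exact ⟨6, by simp [p1]⟩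
  p_range i := by fin_cases i <;> simp [p1, gen_mem_range, -MonoidHom.mem_range]
  j_range i := by
    fin_cases i <;> simp [j1, gen_mem_range, mul_mem, -MonoidHom.mem_range]

/-- The second forgetful map. -/
noncomputable def forget2 : Forget where
  p := p2
  j := j2
  pj x := DFunLike.congr_fun (chom_ext (f := p2.comp j2) (g := ContinuousMonoidHom.id _)
    fun i => by fin_cases i <;> simp [p2, j2, gen4_three]) x
  cases i hi := by
    fin_cases i <;> first | exact absurd rfl hi | simp [p2, j2]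
  surj i := by
    fin_cases i
    · exact ⟨3, by simp [p2]⟩
    · exact ⟨4, by simp [p2]⟩
    · exact ⟨5, by simp [p2]⟩
    · exact ⟨6, by simp [p2]⟩
  p_range i := by fin_cases i <;> simp [p2, gen_mem_range, -MonoidHom.mem_range]
  j_range i := by
    fin_cases i <;> simp [j2, gen_mem_range, mul_mem, -MonoidHom.mem_range]

namespace Forget

variable (F : Forget)

/-- The induced endomorphism. -/
noncomputable def bar (φ : pure7) : Hat (Pi0 4) →ₜ* Hat (Pi0 4) :=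
  F.p.comp ((toCH φ.1).comp F.j)

lemma bar_apply (φ : pure7) (x : Hat (Pi0 4)) : F.bar φ x = F.p (ap φ.1 (F.j x)) := rfl

lemma bar_p (φ : pure7) (x : Hat (Pi0 7)) : F.bar φ (F.p x) = F.p (ap φ.1 x) := by
  have : (F.bar φ).comp F.p = F.p.comp (toCH φ.1) := ext7 fun i hi => by
    change F.bar φ (F.p (gen 7 i)) = F.p (ap φ.1 (gen 7 i))
    rcases F.cases i hi with h | h
    · obtain ⟨a, ha, hlac⟩ := exists_lac φ.1
      obtain ⟨α, hα⟩ := pure_lac φ.2 ha hlac i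
      rw [h, map_one, hα, map_mul, map_mul, map_powHat F.p F.p.continuous_toFun, h]
      simp
    · rw [bar_apply, h]
  exact DFunLike.congr_fun this x

lemma bar_mul (φ ψ : pure7) (x : Hat (Pi0 4)) : F.bar φ (F.bar ψ x) = F.bar (φ * ψ) x := by
  rw [bar_apply F ψ, bar_p]; rfl

lemma bar_one (x : Hat (Pi0 4)) : F.bar 1 x = x := F.pj x

lemma bar_lac (φ : pure7) {a : ZHat} (ha : IsUnitHat a) (h : Lac a φ.1) (i : Fin 4) :
    ∃ α, F.bar φ (gen 4 i) = α * powHat (gen 4 i) a * α⁻¹ := by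
  obtain ⟨i', hi'⟩ := F.surj i
  obtain ⟨α, hα⟩ := pure_lac φ.2 ha h i'
  refine ⟨F.p α, ?_⟩
  rw [← hi', bar_p, hα, map_mul, map_mul, map_inv, map_powHat F.p F.p.continuous_toFun]

/-- The induced continuous automorphism. -/
noncomputable def barAut (φ : pure7) : CAut (Hat (Pi0 4)) :=
  mkAut (F.bar φ) (F.bar φ⁻¹)
    (by ext x; exact (F.bar_mul φ φ⁻¹ x).trans (by rw [mul_inv_cancel, bar_one]; rfl))
    (by ext x; exact (F.bar_mul φ⁻¹ φ x).trans (by rw [inv_mul_cancel, bar_one]; rfl))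

/-- The forgetful homomorphism. -/
noncomputable def hom : pure7 →* AL 4 where
  toFun φ := ⟨F.barAut φ, by
    obtain ⟨a, ha, hlac⟩ := exists_lac φ.1
    exact ⟨a, ha, 1, F.bar_lac φ ha hlac⟩⟩
  map_one' := by
    refine AL_ext fun x => ?_
    exact F.bar_one x
  map_mul' φ ψ := by
    refine AL_ext fun x => ?_
    exact (F.bar_mul φ ψ x).symm

lemma hom_apply (φ : pure7) (x : Hat (Pi0 4)) : ap (F.hom φ) x = F.p (ap φ.1 (F.j x)) := rfl

lemma continuous_hom : Continuous F.hom := by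
  refine Continuous.subtype_mk (continuous_induced_rng.2 ?_) _
  exact (ContinuousMap.continuous_postcomp (F.p : C(Hat (Pi0 7), Hat (Pi0 4)))).comp
    ((ContinuousMap.continuous_precomp (F.j : C(Hat (Pi0 4), Hat (Pi0 7)))).comp
      (continuous_toCM.comp (continuous_subtype_val.comp continuous_subtype_val)))

lemma hom_discrete {φ : pure7} (h : φ.1 ∈ DD 7) : F.hom φ ∈ DD 4 := by
  have key : ∀ ψ : pure7, ψ.1 ∈ DD 7 → ∀ i,
      ap (F.hom ψ) (gen 4 i) ∈ (eta (Pi0 4)).range := by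
    intro ψ hψ i
    rw [hom_apply]
    exact maps_range (f := F.p.toMonoidHom) F.p_range
      (maps_range (f := (ap ψ.1).toMonoidHom) (mem_discrete.1 hψ).1 (F.j_range i))
  refine mem_discrete.2 ⟨key φ h, ?_⟩
  rw [← map_inv]
  exact key φ⁻¹ (inv_mem h)

lemma hom_closure {φ : pure7} (h : φ.1 ∈ (DD 7).topologicalClosure) :
    F.hom φ ∈ (DD 4).topologicalClosure := by
  have h1 : φ ∈ closure (Subtype.val ⁻¹' (DD 7 : Set (AL 7)) : Set pure7) :=
    isOpen_pure7.isOpenMap_subtype_val.preimage_closure_subset_closure_preimage h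
  exact map_mem_closure F.continuous_hom h1 fun ψ hψ => F.hom_discrete hψ

lemma hom_KK {φ : pure7} (h : φ.1 ∈ KK 7) : F.hom φ ∈ KK 4 := by
  obtain ⟨⟨ψ, hψ, g, hg⟩, hχ⟩ := mem_KK.1 h
  have hψp : ψ ∈ pure7 := by
    have : ψ = φ.1 * (conjLac g)⁻¹ := by rw [hg, mul_inv_cancel_right]
    rw [this]
    exact mul_mem φ.2 (inv_mem (conjLac_mem_pure7 g))
  refine mem_KK.2 ⟨⟨F.hom ⟨ψ, hψp⟩, F.hom_closure hψ, F.p g, ?_⟩, 1,
    F.bar_lac φ isUnitHat_one (mem_CC.1 hχ)⟩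
  have h1 : conjLac (F.p g) = F.hom ⟨conjLac g, conjLac_mem_pure7 g⟩ := by
    refine AL_ext fun x => ?_
    rw [hom_apply]
    simp [F.pj]
  rw [h1, ← map_mul]
  congr 1
  exact Subtype.ext hg

end Forget

lemma forget1_glue {κ₁ κ₂ : AL 4} (h₁ : Refl κ₁) (h₂ : Refl κ₂) :
    forget1.hom ⟨glue h₁ h₂, glue_mem_pure7 h₁ h₂⟩ = κ₁ := by
  refine AL_ext fun x => ?_
  rw [Forget.hom_apply, glue_apply]
  exact (congrArg p1 (glueHom_j1 _ _ x)).trans (forget1.pj _)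

lemma forget2_glue {κ₁ κ₂ : AL 4} (h₁ : Refl κ₁) (h₂ : Refl κ₂) :
    forget2.hom ⟨glue h₁ h₂, glue_mem_pure7 h₁ h₂⟩ = κ₂ := by
  refine AL_ext fun x => ?_
  rw [Forget.hom_apply, glue_apply]
  exact (congrArg p2 (glueHom_j2 _ _ x)).trans (forget2.pj _)

end Pool.Agent.Work.MP_0f2eae_al
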