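import Pool.Agent.Work.MP_0f2eae_al.Defs1
import Pool.Agent.Work.MP_0f2eae_al.Galois
import Mathlib.Topology.Instances.ZMod

/-!
General structure: homomorphisms out of the completed sphere groups, and the consequence of the
conjectured isomorphism.
-/

namespace Pool.Agent.Work.MP_0f2eae_al

variable {n m : ℕ} {P : Type}
  [Group P] [TopologicalSpace P] [IsTopologicalGroup P] [CompactSpace P]
  [TotallyDisconnectedSpace P]

/-- Abbreviation for `Aut_lac` of the sphere group. -/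
abbrev AL (n : ℕ) : Type := autLac (gen n)

/-- Abbreviation for the inner automorphisms. -/
abbrev II (n : ℕ) : Subgroup (AL n) := (inn (Hat (Pi0 n))).subgroupOf (autLac (gen n))

/-- Abbreviation for the discrete part. -/
abbrev DD (n : ℕ) : Subgroup (AL n) := (discrete (eta (Pi0 n)).range).subgroupOf (autLac (gen n))

/-- Abbreviation for the kernel of the character. -/
abbrev CC (n : ℕ) : Subgroup (AL n) := (chiOne (gen n)).subgroupOf (autLac (gen n))

/-- Abbreviation for the positive part. -/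
abbrev TP (n : ℕ) : Subgroup (AL n ⧸ II n) :=
  plusPart (autLac (gen n)) (inn (Hat (Pi0 n))) (discrete (eta (Pi0 n)).range) (chiOne (gen n))

/-- The automorphism underlying an element of `AL n`. -/
def ap : AL n →* MulAut (Hat (Pi0 n)) := CAut.val.comp (autLac (gen n)).subtype

lemma ap_cont (φ : AL n) : Continuous (ap φ) := φ.1.cont

lemma AL_ext {φ ψ : AL n} (h : ∀ x, ap φ x = ap ψ x) : φ = ψ := Subtype.ext (CAut.ext h)

lemma ap_mul (φ ψ : AL n) (x : Hat (Pi0 n)) : ap (φ * ψ) x = ap φ (ap ψ x) := rfl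

lemma ap_inv_ap (φ : AL n) (x : Hat (Pi0 n)) : ap φ⁻¹ (ap φ x) = x := val_inv_apply φ.1 x

lemma ap_ap_inv (φ : AL n) (x : Hat (Pi0 n)) : ap φ (ap φ⁻¹ x) = x := val_apply_inv φ.1 x

/-- The lac condition for elements of `AL n`. -/
def Lac (a : ZHat) (φ : AL n) : Prop :=
  ∃ σ : Equiv.Perm (Fin n), ∀ i, ∃ α, ap φ (gen n i) = α * powHat (gen n (σ i)) a * α⁻¹

lemma exists_lac (φ : AL n) : ∃ a, IsUnitHat a ∧ Lac a φ := φ.2

lemma mem_CC {φ : AL n} : φ ∈ CC n ↔ Lac oneHat φ := Iff.rfl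

lemma lift_rel {H : Type*} [Group H] (f : Fin n → H) :
    FreeGroup.lift f (List.ofFn fun i : Fin n => FreeGroup.of i).prod = (List.ofFn f).prod := by
  rw [map_list_prod, List.map_ofFn]
  simp [Function.comp_def]

/-- The continuous homomorphism with prescribed values on the generators. -/
noncomputable def mkHom (f : Fin n → P) (hf : (List.ofFn f).prod = 1) : Hat (Pi0 n) →ₜ* P :=
  liftHat (PresentedGroup.toGroup (f := f) (by
    intro r hr
    rw [Set.mem_singleton_iff.1 hr, lift_rel, hf]))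

@[simp] lemma mkHom_gen (f : Fin n → P) (hf : (List.ofFn f).prod = 1) (i : Fin n) :
    mkHom f hf (gen n i) = f i := by
  simp [mkHom, gen]

lemma prod_gen : (List.ofFn (gen n)).prod = 1 := by
  have h : PresentedGroup.mk _ (List.ofFn fun i : Fin n => FreeGroup.of i).prod = (1 : Pi0 n) :=
    PresentedGroup.one_of_mem (Set.mem_singleton _)
  have h2 := congrArg (eta (Pi0 n)) h
  rw [map_list_prod, map_list_prod, List.map_ofFn, List.map_ofFn, map_one] at h2
  exact h2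

lemma hom_ext_gen {H : Type*} [Group H] [TopologicalSpace H] [T2Space H]
    {f g : Hat (Pi0 n) →* H} (hf : Continuous f) (hg : Continuous g)
    (h : ∀ i, f (gen n i) = g (gen n i)) : f = g := by
  have h1 : f.comp (eta _) = g.comp (eta _) := PresentedGroup.ext h
  exact DFunLike.coe_injective (hat_ext hf hg fun x => DFunLike.congr_fun h1 x)

omit [CompactSpace P] in
lemma chom_ext {f g : Hat (Pi0 n) →ₜ* P} (h : ∀ i, f (gen n i) = g (gen n i)) : f = g := by
  have := hom_ext_gen (f := f.toMonoidHom) (g := g.toMonoidHom) f.continuous_toFun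
    g.continuous_toFun h
  ext x
  exact DFunLike.congr_fun this x

lemma gen_mem_range (i : Fin n) : gen n i ∈ (eta (Pi0 n)).range := ⟨_, rfl⟩

lemma maps_range {f : Hat (Pi0 n) →* Hat (Pi0 m)} (h : ∀ i, f (gen n i) ∈ (eta (Pi0 m)).range)
    {x : Hat (Pi0 n)} (hx : x ∈ (eta (Pi0 n)).range) : f x ∈ (eta (Pi0 m)).range := by
  obtain ⟨y, rfl⟩ := hx
  exact PresentedGroup.generated_by _ (((eta (Pi0 m)).range.comap f).comap (eta (Pi0 n))) h y

/-- The continuous automorphism given by two mutually inverse continuous endomorphisms. -/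
def mkAut (f g : P →ₜ* P) (hfg : f.comp g = ContinuousMonoidHom.id P)
    (hgf : g.comp f = ContinuousMonoidHom.id P) : CAut P :=
  ⟨{ toFun := f
     invFun := g
     left_inv := fun x => DFunLike.congr_fun hgf x
     right_inv := fun x => DFunLike.congr_fun hfg x
     map_mul' := map_mul f }, f.continuous_toFun⟩

@[simp] lemma mkAut_apply (f g : P →ₜ* P) (hfg hgf) (x : P) : CAut.val (mkAut f g hfg hgf) x = f x := rfl

@[simp] lemma mkAut_inv_apply (f g : P →ₜ* P) (hfg hgf) (x : P) :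
    CAut.val (mkAut f g hfg hgf)⁻¹ x = g x := rfl

/-- The continuous endomorphism underlying a continuous automorphism. -/
def toCH (φ : AL n) : Hat (Pi0 n) →ₜ* Hat (Pi0 n) := ⟨(ap φ).toMonoidHom, ap_cont φ⟩

@[simp] lemma toCH_apply (φ : AL n) (x : Hat (Pi0 n)) : toCH φ x = ap φ x := rfl

lemma mem_discrete {φ : AL n} : φ ∈ DD n ↔
    (∀ i, ap φ (gen n i) ∈ (eta (Pi0 n)).range) ∧
      ∀ i, ap φ⁻¹ (gen n i) ∈ (eta (Pi0 n)).range := by
  have h1 : ∀ ψ : AL n, ψ ∈ DD n → ∀ i, ap ψ (gen n i) ∈ (eta (Pi0 n)).range := by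
    intro ψ hψ i
    have hψ' : (eta (Pi0 n)).range.map (ap ψ).toMonoidHom = (eta (Pi0 n)).range := hψ
    rw [← hψ']
    exact ⟨_, gen_mem_range i, rfl⟩
  refine ⟨fun h => ⟨h1 _ h, h1 _ (inv_mem h)⟩, fun h => le_antisymm ?_ ?_⟩
  · rintro _ ⟨x, hx, rfl⟩
    exact maps_range h.1 hx
  · intro x hx
    exact ⟨ap φ⁻¹ x, maps_range (f := (ap φ⁻¹).toMonoidHom) h.2 hx, ap_ap_inv φ x⟩

/-- Inner automorphisms as elements of `autLac`. -/
def conjLac (g : Hat (Pi0 n)) : AL n :=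
  ⟨⟨MulAut.conj g, show Continuous fun y : Hat (Pi0 n) => g * y * g⁻¹ by fun_prop⟩,
    oneHat, isUnitHat_one, 1, fun i => ⟨g, by rw [powHat_oneHat]; rfl⟩⟩

@[simp] lemma conjLac_apply (g x : Hat (Pi0 n)) : ap (conjLac g) x = g * x * g⁻¹ := rfl

lemma mem_inn {φ : AL n} : φ ∈ II n ↔ ∃ g, φ = conjLac g := by
  constructor
  · rintro ⟨g, hg⟩
    exact ⟨g, Subtype.ext (Subtype.ext hg.symm)⟩
  · rintro ⟨g, rfl⟩
    exact ⟨g, rfl⟩

lemma conjLac_mem_chiOne (g : Hat (Pi0 n)) : conjLac g ∈ CC n :=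
  mem_CC.2 ⟨1, fun i => ⟨g, by simp⟩⟩

/-- The preimage of `frakTplus` in `autLac`. -/
def KK (n : ℕ) : Subgroup (AL n) := (TP n).comap (QuotientGroup.mk' (II n))

lemma mem_KK {φ : AL n} : φ ∈ KK n ↔
    (∃ ψ ∈ (DD n).topologicalClosure, ∃ g, φ = ψ * conjLac g) ∧ φ ∈ CC n := by
  constructor
  · rintro ⟨⟨ψ, hψ, h1⟩, ⟨χ, hχ, h2⟩⟩
    obtain ⟨z, hz, rfl⟩ := (QuotientGroup.mk'_eq_mk' _).1 h1
    obtain ⟨z', hz', h3⟩ := (QuotientGroup.mk'_eq_mk' _).1 h2
    obtain ⟨g, rfl⟩ := mem_inn.1 hz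
    obtain ⟨g', rfl⟩ := mem_inn.1 hz'
    exact ⟨⟨ψ, hψ, g, rfl⟩, h3 ▸ mul_mem hχ (conjLac_mem_chiOne g')⟩
  · rintro ⟨⟨ψ, hψ, g, rfl⟩, h⟩
    exact ⟨⟨ψ, hψ, (QuotientGroup.mk'_eq_mk' _).2 ⟨_, mem_inn.2 ⟨g, rfl⟩, rfl⟩⟩, ⟨_, h, rfl⟩⟩

lemma conjLac_one : conjLac (1 : Hat (Pi0 n)) = 1 := by
  exact AL_ext fun x => by simp

lemma conjLac_mem_KK (g : Hat (Pi0 n)) : conjLac g ∈ KK n :=
  mem_KK.2 ⟨⟨1, one_mem _, g, (one_mul _).symm⟩, conjLac_mem_chiOne g⟩

lemma mem_KK_of_discrete {φ : AL n} (h1 : φ ∈ DD n) (h2 : φ ∈ CC n) : φ ∈ KK n :=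
  mem_KK.2 ⟨⟨φ, Subgroup.le_topologicalClosure _ h1, 1, by rw [conjLac_one, mul_one]⟩, h2⟩

/-- The assertion of the conjecture for the pair `(0, n)`. -/
def Conj (n : ℕ) : Prop := Assertion (gen n) (eta (Pi0 n)).range

lemma Conj.exists_theta (h : Conj n) : ∃ Θ : AL n →* (Qb ≃ₐ[ℚ] Qb), Continuous Θ ∧
    IsOpenMap Θ ∧ Function.Surjective Θ ∧ ∀ φ, Θ φ = 1 ↔ φ ∈ KK n := by
  obtain ⟨_, ⟨e⟩⟩ := h
  refine ⟨(e.toMulEquiv.toMonoidHom.comp (QuotientGroup.mk' (TP n))).comp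
    (QuotientGroup.mk' (II n)), ?_, ?_, ?_, ?_⟩
  · exact (e.continuous_toFun.comp QuotientGroup.continuous_mk).comp QuotientGroup.continuous_mk
  · exact (e.toHomeomorph.isOpenMap.comp QuotientGroup.isOpenMap_coe).comp
      QuotientGroup.isOpenMap_coe
  · exact (e.surjective.comp (QuotientGroup.mk'_surjective _)).comp
      (QuotientGroup.mk'_surjective _)
  · intro φ
    exact (map_eq_one_iff e.toMulEquiv e.injective).trans (QuotientGroup.eq_one_iff _)

lemma continuous_evalLac (x : Hat (Pi0 n)) : Continuous fun φ : AL n => ap φ x :=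
  (continuous_eval x).comp continuous_subtype_val

lemma powHat_of_sq {y : P} (hy : y * y = 1) {a : ZHat} (ha : IsUnitHat a) : powHat y a = y := by
  have hcl : IsClosed {a : ZHat | powHat y a ∈ ({1, y} : Set P)} :=
    (Set.toFinite ({1, y} : Set P)).isClosed.preimage (continuous_powHat y)
  have hmem : powHat y a ∈ ({1, y} : Set P) := by
    refine denseRange_eta.induction_on a hcl fun k => ?_
    rw [powHat_eta]
    have h2 : y ^ (2 : ℤ) = 1 := by rw [zpow_two, hy]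
    rcases Int.emod_two_eq_zero_or_one k.toAdd with h | h
    · left
      rw [← Int.mul_ediv_add_emod k.toAdd 2, h, add_zero, zpow_mul, h2, one_zpow]
    · right
      rw [← Int.mul_ediv_add_emod k.toAdd 2, h, zpow_add, zpow_mul, h2, one_zpow, one_mul,
        zpow_one]
      rfl
  rcases hmem with h | h
  · obtain ⟨b, hab, -⟩ := ha
    have : y = 1 := by rw [← powHat_oneHat y, ← hab, ← powHat_powHat, h, one_powHat]
    rw [h, this]
  · exact h

end Pool.Agent.Work.MP_0f2eae_al
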